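import Mathlib
import Pool.Agent.Q177.FreeTopKR

/-!
# MP_b47bfe_gt: `F₄(X)` is a `k_R`-space for metrizable `X` with compact derived set
-/

set_option autoImplicit false

universe u

namespace Pool.Agent.Results.MP_b47bfe_gt.F4IsKR

/-- The topology of the free topological group (in the sense of Markov) on `X`: the finest group
topology on the free group on the set `X` for which the inclusion of the generators is
continuous. -/
@[reducible]
def markovTopology (X : Type u) [τ : TopologicalSpace X] : TopologicalSpace (FreeGroup X) :=
  (sInf {t : GroupTopology (FreeGroup X) |
    @Continuous X (FreeGroup X) τ t.toTopologicalSpace FreeGroup.of}).toTopologicalSpace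

/-- The set `Fₙ(X)` of all elements of the free group of reduced length at most `n`, that is, of
all elements which are represented by some word of length at most `n`. -/
def F (X : Type u) (n : ℕ) : Type u :=
  {w : FreeGroup X // ∃ L : List (X × Bool), L.length ≤ n ∧ FreeGroup.mk L = w}

/-- `Fₙ(X)` carries the subspace topology of the free topological group. -/
instance (X : Type u) [TopologicalSpace X] (n : ℕ) : TopologicalSpace (F X n) :=
  (markovTopology X).induced Subtype.val

/-- `Y` is a `k_R`-space: it is Tychonoff, and every real function on `Y` whose restriction to each
compact subset is continuous is continuous. -/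
def IsKRSpace (Y : Type u) [TopologicalSpace Y] : Prop :=
  T35Space Y ∧ ∀ f : Y → ℝ, (∀ K : Set Y, IsCompact K → ContinuousOn f K) → Continuous f

/-- If `X` is metrizable and the set of its nonisolated points is compact, then `F₄(X)` is a
`k_R`-space. -/
theorem result (X : Type u) [TopologicalSpace X] [TopologicalSpace.MetrizableSpace X]
    (hX : IsCompact {x : X | ¬ IsOpen ({x} : Set X)}) : IsKRSpace (F X 4) :=
  @Q177.FreeTop.kR_four X _ (markovTopology X) (Q177.FreeTop.isFreeTop_sInf X) _ hX

end Pool.Agent.Results.MP_b47bfe_gt.F4IsKR
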